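import Mathlib
open Polynomial

set_option autoImplicit false

namespace Pool.Agent.Helper648.NG

variable {κ F : Type} [Field κ] [Field F] [Algebra κ F]

theorem aevalAeval_eq_eval₂ {A : Type} [CommRing A] [Algebra κ A] (a b : A) (Q : κ[X][X]) :
    aevalAeval a b Q = eval₂ (aeval a : κ[X] →ₐ[κ] A).toRingHom b Q := by
  induction Q using Polynomial.induction_on' with
  | add p q hp hq => rw [map_add, eval₂_add, hp, hq]
  | monomial n p =>
    rw [← C_mul_X_pow_eq_monomial, map_mul, map_pow, eval₂_mul, eval₂_C, eval₂_pow, eval₂_X,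
      aevalAeval_C, aevalAeval_Y]
    rfl

variable (κ) in
/-- One step of the chain. -/
def Step (D : ℕ) (a b : F) : Prop :=
  Transcendental κ a ∧ ∃ Q : κ[X][X], Q ≠ 0 ∧ Q.natDegree ≤ D ∧
    aevalAeval a b Q = 0

variable (κ) in
/-- Chains of steps. -/
inductive Reach (D : ℕ) : ℕ → F → F → Prop
  | refl (a : F) : Reach D 0 a a
  | step {N : ℕ} {a b c : F} : Step κ D a b → Reach D N b c → Reach D (N + 1) a c

theorem tower {D N : ℕ} {a c : F} (h : Reach κ D N a c) :
    ∀ (K : Type) [Field K] [Algebra κ K] [Algebra K F] [IsScalarTower κ K F] (k : K),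
      algebraMap K F k = a → IsIntegral K c ∧ (minpoly K c).natDegree ≤ D ^ N := by
  induction h with
  | refl a =>
    intro K _ _ _ _ k hk
    subst hk
    refine ⟨isIntegral_algebraMap, ?_⟩
    rw [minpoly.eq_X_sub_C]
    simp
  | @step N a b c hab hbc ih =>
    intro K _ _ _ _ k hk
    obtain ⟨ha, Q, hQ0, hQD, hQ⟩ := hab
    have hkt : Transcendental κ k := by
      intro hk'
      apply ha
      rw [← hk]
      exact hk'.algebraMap
    have hinj : Function.Injective (aeval k : κ[X] →ₐ[κ] K) := transcendental_iff_injective.mp hkt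
    set q : K[X] := Q.map (aeval k : κ[X] →ₐ[κ] K).toRingHom with hq
    have hq0 : q ≠ 0 := by
      rw [hq]
      exact (Polynomial.map_ne_zero_iff hinj).mpr hQ0
    have hqb : aeval b q = 0 := by
      rw [hq, aeval_def, eval₂_map, ← hQ, aevalAeval_eq_eval₂]
      congr 1
      apply Polynomial.ringHom_ext
      · intro r
        simp [← IsScalarTower.algebraMap_apply]
      · simp [hk]
    have hbint : IsIntegral K b := by
      rw [← isAlgebraic_iff_isIntegral]
      exact ⟨q, hq0, hqb⟩
    have hbdeg : (minpoly K b).natDegree ≤ D := by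
      have h1 := minpoly.degree_le_of_ne_zero K b hq0 hqb
      have h2 : (minpoly K b).natDegree ≤ q.natDegree := natDegree_le_natDegree h1
      have h3 : q.natDegree ≤ Q.natDegree := natDegree_map_le
      omega
    have hfin1 : Module.finrank K (IntermediateField.adjoin K {b}) = (minpoly K b).natDegree :=
      IntermediateField.adjoin.finrank hbint
    haveI : FiniteDimensional K (IntermediateField.adjoin K {b}) :=
      IntermediateField.adjoin.finiteDimensional hbint
    obtain ⟨hci, hcd⟩ : IsIntegral (IntermediateField.adjoin K {b}) c ∧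
        (minpoly (IntermediateField.adjoin K {b}) c).natDegree ≤ D ^ N := by
      letI : Algebra κ (IntermediateField.adjoin K {b}) :=
        ((algebraMap K (IntermediateField.adjoin K {b})).comp (algebraMap κ K)).toAlgebra
      haveI : IsScalarTower κ (IntermediateField.adjoin K {b}) F :=
        IsScalarTower.of_algebraMap_eq (fun r => by
          rw [IsScalarTower.algebraMap_apply κ K F]
          rfl)
      exact ih (IntermediateField.adjoin K {b})
        ⟨b, IntermediateField.mem_adjoin_simple_self K b⟩ rfl
    set K' := IntermediateField.adjoin K {b} with hK'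
    haveI : FiniteDimensional K' (IntermediateField.adjoin K' {c}) :=
      IntermediateField.adjoin.finiteDimensional hci
    have hfin2 : Module.finrank K' (IntermediateField.adjoin K' {c}) = (minpoly K' c).natDegree :=
      IntermediateField.adjoin.finrank hci
    have hmul := Module.finrank_mul_finrank K K' (IntermediateField.adjoin K' {c})
    haveI : FiniteDimensional K (IntermediateField.adjoin K' {c}) :=
      Module.Finite.trans K' _
    let c' : IntermediateField.adjoin K' {c} := ⟨c, IntermediateField.mem_adjoin_simple_self K' c⟩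
    haveI : IsScalarTower K (IntermediateField.adjoin K' {c}) F :=
      IsScalarTower.of_algebraMap_eq (fun r => rfl)
    have hint : IsIntegral K c' := Algebra.IsIntegral.isIntegral c'
    have hmap : algebraMap (IntermediateField.adjoin K' {c}) F c' = c := rfl
    refine ⟨?_, ?_⟩
    · exact hint.algebraMap (B := F)
    · have h1 : minpoly K c = minpoly K c' :=
        minpoly.algebraMap_eq (algebraMap (IntermediateField.adjoin K' {c}) F).injective c'
      rw [h1]
      calc (minpoly K c').natDegree ≤ Module.finrank K (IntermediateField.adjoin K' {c}) :=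
            minpoly.natDegree_le c'
        _ = Module.finrank K K' * Module.finrank K' (IntermediateField.adjoin K' {c}) := hmul.symm
        _ ≤ D * D ^ N := by
            rw [hfin1, hfin2]
            exact Nat.mul_le_mul hbdeg hcd
        _ = D ^ (N + 1) := by ring


theorem natDegree_ge_of_root {κ : Type} [Field κ] (G : κ[X]) (hm : 0 < G.natDegree) (q : κ[X][X]) (hq : q ≠ 0)
    (hR : eval₂ (compRingHom G) X q = 0) : G.natDegree ≤ q.natDegree := by
  by_contra hlt
  push Not at hlt
  have hG0 : G ≠ 0 := by
    intro h; rw [h] at hm; simp at hm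
  rw [eval₂_eq_sum, Polynomial.sum_def] at hR
  set f : ℕ → κ[X] := fun i => (compRingHom G) (q.coeff i) * X ^ i with hf
  have hcomp : ∀ p : κ[X], p ≠ 0 → p.comp G ≠ 0 := by
    intro p hp h
    rw [comp_eq_zero_iff] at h
    rcases h with h | ⟨_, h⟩
    · exact hp h
    · rw [h] at hm; simp at hm
  have hne : ∀ i ∈ q.support, f i ≠ 0 := by
    intro i hi
    have : q.coeff i ≠ 0 := mem_support_iff.mp hi
    exact mul_ne_zero (hcomp _ this) (pow_ne_zero _ X_ne_zero)
  have hdeg : ∀ i ∈ q.support, (f i).natDegree = (q.coeff i).natDegree * G.natDegree + i := by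
    intro i hi
    have : q.coeff i ≠ 0 := mem_support_iff.mp hi
    have h1 : (f i).natDegree = ((q.coeff i).comp G).natDegree + (X ^ i : κ[X]).natDegree :=
      natDegree_mul (hcomp _ this) (pow_ne_zero _ X_ne_zero)
    rw [h1, natDegree_comp, natDegree_X_pow]
  have hdis : Set.Pairwise {i | i ∈ q.support ∧ f i ≠ 0} (Function.onFun Ne (degree ∘ f)) := by
    intro i hi j hj hij hd
    simp only [Set.mem_ofPred_eq] at hi hj
    simp only [Function.comp, Function.onFun] at hd
    have h1 : (f i).natDegree = (f j).natDegree := natDegree_eq_of_degree_eq hd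
    rw [hdeg i hi.1, hdeg j hj.1] at h1
    have hi' : i < G.natDegree := lt_of_le_of_lt (le_natDegree_of_mem_supp i hi.1) hlt
    have hj' : j < G.natDegree := lt_of_le_of_lt (le_natDegree_of_mem_supp j hj.1) hlt
    apply hij
    have h2 : ((q.coeff i).natDegree * G.natDegree + i) % G.natDegree = i := by
      rw [Nat.mul_add_mod_self_right, Nat.mod_eq_of_lt hi']
    have h3 : ((q.coeff j).natDegree * G.natDegree + j) % G.natDegree = j := by
      rw [Nat.mul_add_mod_self_right, Nat.mod_eq_of_lt hj']
    rw [← h2, ← h3, h1]
  have hsum := Polynomial.degree_sum_eq_of_disjoint f q.support hdis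
  have hR' : (q.support.sum f) = 0 := hR
  rw [hR', degree_zero] at hsum
  obtain ⟨i, hi⟩ : q.support.Nonempty := by
    rw [Finset.nonempty_iff_ne_empty]
    intro h
    exact hq (support_eq_empty.mp h)
  have h4 : (f i).degree ≤ ⊥ := by
    rw [hsum]
    exact Finset.le_sup (f := fun i => (f i).degree) hi
  exact hne i hi (degree_eq_bot.mp (le_bot_iff.mp h4))


theorem lower {D N : ℕ} {x : F} (hx : Transcendental κ x) (G : κ[X]) (hm : 0 < G.natDegree)
    (h : Reach κ D N (aeval x G) x) : G.natDegree ≤ D ^ N := by
  have hxi : Function.Injective (aeval x : κ[X] →ₐ[κ] F) := transcendental_iff_injective.mp hx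
  set y : F := aeval x G with hy
  have hcomp : ∀ p : κ[X], p ≠ 0 → p.comp G ≠ 0 := by
    intro p hp h
    rw [comp_eq_zero_iff] at h
    rcases h with h | ⟨_, h⟩
    · exact hp h
    · rw [h] at hm; simp at hm
  have hyi : Function.Injective (aeval y : κ[X] →ₐ[κ] F).toRingHom := by
    rw [injective_iff_map_eq_zero]
    intro p hp
    by_contra hp0
    apply hcomp p hp0
    apply hxi
    rw [map_zero, aeval_comp]
    exact hp
  let K := FractionRing κ[X]
  letI : Algebra K F := (IsFractionRing.lift hyi : K →+* F).toAlgebra
  have hlift : ∀ p : κ[X], algebraMap K F (algebraMap κ[X] K p) = aeval y p := fun p =>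
    IsFractionRing.lift_algebraMap hyi p
  haveI : IsScalarTower κ K F := IsScalarTower.of_algebraMap_eq (fun r => by
    rw [IsScalarTower.algebraMap_apply κ κ[X] K, hlift, algebraMap_eq, aeval_C])
  obtain ⟨hint, hdeg⟩ := tower h K (algebraMap κ[X] K X) (by rw [hlift, aeval_X])
  set p := minpoly K x with hp
  have hp0 : p ≠ 0 := minpoly.ne_zero hint
  set q : κ[X][X] := IsLocalization.integerNormalization (nonZeroDivisors κ[X]) p with hq
  have hq0 : q ≠ 0 := by
    rw [hq, Ne, IsFractionRing.integerNormalization_eq_zero_iff]
    exact hp0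
  have hqdeg : q.natDegree ≤ p.natDegree := by
    rw [natDegree_le_iff_coeff_eq_zero]
    intro n hn
    have h1 : n ∉ p.support := by
      rw [notMem_support_iff]
      exact coeff_eq_zero_of_natDegree_lt hn
    rw [← notMem_support_iff]
    exact fun h2 => h1 (IsLocalization.integerNormalization_support _ _ h2)
  have hqx : eval₂ ((algebraMap K F).comp (algebraMap κ[X] K)) x q = 0 := by
    apply IsLocalization.integerNormalization_eval₂_eq_zero
    exact minpoly.aeval K x
  have hR : eval₂ (compRingHom G) X q = 0 := by
    apply hxi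
    rw [map_zero]
    have h1 := hom_eval₂ q (compRingHom G) (aeval x : κ[X] →ₐ[κ] F).toRingHom X
    have h2 : (aeval x : κ[X] →ₐ[κ] F).toRingHom.comp (compRingHom G) =
        (algebraMap K F).comp (algebraMap κ[X] K) := by
      apply RingHom.ext
      intro r
      have : (aeval x) (r.comp G) = aeval y r := aeval_comp ..
      simp only [RingHom.comp_apply, hlift]
      exact this
    rw [h2] at h1
    have h3 : (aeval x : κ[X] →ₐ[κ] F).toRingHom X = x := aeval_X x
    rw [h3, hqx] at h1
    exact h1
  exact (natDegree_ge_of_root G hm q hq0 hR).trans (hqdeg.trans hdeg)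

end Pool.Agent.Helper648.NG
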