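import Mathlib

set_option autoImplicit false

open Polynomial Filter Topology

namespace Pool.Agent.Helper648.NG



/-! ### germs -/

/-- real functions fixing `0` and of class `C^r` at all points of a neighbourhood of `0` -/
def PreGerm (r : WithTop ℕ∞) : Type :=
  {f : ℝ → ℝ // f 0 = 0 ∧ ∀ᶠ x in 𝓝 (0 : ℝ), ContDiffAt ℝ r f x}

instance setoid (r : WithTop ℕ∞) : Setoid (PreGerm r) where
  r f g := f.1 =ᶠ[𝓝 0] g.1
  iseqv := ⟨fun f => EventuallyEq.refl _ f.1, fun h => h.symm, fun h1 h2 => h1.trans h2⟩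

/-- germs at `0` of such functions -/
def GermMon (r : WithTop ℕ∞) : Type := Quotient (setoid r)

/-- the germ of a function -/
def mkG {r : WithTop ℕ∞} (f : PreGerm r) : GermMon r := Quotient.mk (setoid r) f

theorem mkG_eq {r : WithTop ℕ∞} {f g : PreGerm r} (h : mkG f = mkG g) : f.1 =ᶠ[𝓝 0] g.1 :=
  Quotient.exact h

theorem exists_rep {r : WithTop ℕ∞} (u : GermMon r) : ∃ f : PreGerm r, mkG f = u :=
  Quotient.exists_rep u

instance {r : WithTop ℕ∞} : Inhabited (PreGerm r) :=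
  ⟨⟨id, rfl, Eventually.of_forall fun x => contDiffAt_id⟩⟩

theorem PreGerm.tendsto {r : WithTop ℕ∞} (g : PreGerm r) : Tendsto g.1 (𝓝 0) (𝓝 0) := by
  have := g.2.2.self_of_nhds.continuousAt
  rw [ContinuousAt, g.2.1] at this
  exact this

/-- composition -/
def PreGerm.comp {r : WithTop ℕ∞} (f g : PreGerm r) : PreGerm r :=
  ⟨f.1 ∘ g.1, by simp [g.2.1, f.2.1], by
    filter_upwards [g.2.2, g.tendsto.eventually f.2.2] with x h1 h2
    exact h2.comp x h1⟩

instance {r : WithTop ℕ∞} : Monoid (GermMon r) where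
  mul := Quotient.map₂ PreGerm.comp (by
    intro f f' hf g g' hg
    change (f.1 ∘ g.1) =ᶠ[𝓝 0] (f'.1 ∘ g'.1)
    filter_upwards [hg, g.tendsto.eventually hf] with x h1 h2
    simp only [Function.comp]
    rw [h2, h1])
  one := mkG ⟨id, rfl, Eventually.of_forall fun x => contDiffAt_id⟩
  mul_assoc := by
    rintro ⟨f⟩ ⟨g⟩ ⟨h⟩
    rfl
  one_mul := by
    rintro ⟨f⟩
    rfl
  mul_one := by
    rintro ⟨f⟩
    rfl

/-- the group `𝒢^r` of germs at `0` of `C^r` diffeomorphisms fixing `0`: the invertible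
elements of the monoid of germs -/
abbrev DiffGerm (r : WithTop ℕ∞) : Type := (GermMon r)ˣ

theorem mk_mul {r : WithTop ℕ∞} (f g : PreGerm r) : mkG f * mkG g = mkG (f.comp g) := rfl

/-- `x - x^2` -/
def sqPre (r : WithTop ℕ∞) : PreGerm r :=
  ⟨fun x => x - x ^ 2, by simp, Eventually.of_forall fun x => by fun_prop⟩

/-- the local inverse of `x - x^2` -/
noncomputable def sqPreInv (r : WithTop ℕ∞) : PreGerm r :=
  ⟨fun x => (1 - √(1 - 4 * x)) / 2, by simp, by
    have h : ∀ᶠ x in 𝓝 (0 : ℝ), x < 1 / 4 := eventually_lt_nhds (by norm_num)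
    filter_upwards [h] with x hx
    have h1 : (1 : ℝ) - 4 * x ≠ 0 := by
      have : (0 : ℝ) < 1 - 4 * x := by linarith
      exact this.ne'
    have h2 : ContDiffAt ℝ r (fun x : ℝ => √(1 - 4 * x)) x :=
      ContDiffAt.sqrt (by fun_prop) h1
    exact (contDiffAt_const.sub h2).div_const 2⟩

/-- the germ `g` of `x - x^2`, as an element of `𝒢^r` -/
noncomputable def sqGerm (r : WithTop ℕ∞) : DiffGerm r where
  val := mkG (sqPre r)
  inv := mkG (sqPreInv r)
  val_inv := by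
    rw [mk_mul]
    apply Quotient.sound
    change ((sqPre r).1 ∘ (sqPreInv r).1) =ᶠ[𝓝 0] id
    have h : ∀ᶠ x in 𝓝 (0 : ℝ), x < 1 / 4 := eventually_lt_nhds (by norm_num)
    filter_upwards [h] with x hx
    have h1 : (0 : ℝ) ≤ 1 - 4 * x := by linarith
    have h2 := Real.sq_sqrt h1
    simp only [Function.comp, sqPre, sqPreInv, id]
    nlinarith
  inv_val := by
    rw [mk_mul]
    apply Quotient.sound
    change ((sqPreInv r).1 ∘ (sqPre r).1) =ᶠ[𝓝 0] id
    have h : ∀ᶠ x in 𝓝 (0 : ℝ), x < 1 / 2 := eventually_lt_nhds (by norm_num)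
    filter_upwards [h] with x hx
    have h1 : (1 : ℝ) - 4 * (x - x ^ 2) = (1 - 2 * x) ^ 2 := by ring
    simp only [Function.comp, sqPre, sqPreInv, id]
    rw [h1, Real.sqrt_sq (by linarith)]
    ring

/-- the germ is algebraic: some nonzero polynomial `P` in two variables satisfies
`P(x, f(x)) = 0` for all `x` near `0` -/
def IsAlgebraicGerm {r : WithTop ℕ∞} (u : GermMon r) : Prop :=
  ∃ P : ℝ[X][X], P ≠ 0 ∧ ∃ f : PreGerm r, mkG f = u ∧
    ∀ᶠ x in 𝓝 (0 : ℝ), P.evalEval x (f.1 x) = 0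

/-- word length with respect to `S ∪ S⁻¹` -/
noncomputable def wordLength {Γ : Type} [Group Γ] (S : Set Γ) (h : Γ) : ℕ :=
  sInf {k | ∃ l : List Γ, (∀ s ∈ l, s ∈ S ∨ s⁻¹ ∈ S) ∧ l.prod = h ∧ l.length = k}

/-- `h` lies in the group generated by the finite set `S` and is distorted there -/
def DistortedIn {Γ : Type} [Group Γ] (S : Finset Γ) (h : Γ) : Prop :=
  h ∈ Subgroup.closure (S : Set Γ) ∧
    Tendsto (fun n : ℕ => (wordLength (S : Set Γ) (h ^ n) : ℝ) / n) atTop (𝓝 0)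


end Pool.Agent.Helper648.NG
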