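import Mathlib
import Pool.Agent.Helper648.NG.Alg
import Pool.Agent.Helper648.NG.Defs

set_option autoImplicit false

open Polynomial Filter Topology

namespace Pool.Agent.Helper648.NG

/-! ### the germ field -/


/-- an ultrafilter of punctured neighbourhoods of `0` -/
noncomputable def UF : Ultrafilter ℝ := Ultrafilter.of (𝓝[≠] (0 : ℝ))

theorem UF_le : (UF : Filter ℝ) ≤ 𝓝[≠] (0 : ℝ) := Ultrafilter.of_le _

theorem UF_le' : (UF : Filter ℝ) ≤ 𝓝 (0 : ℝ) := UF_le.trans nhdsWithin_le_nhds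

/-- the field of germs along the ultrafilter -/
abbrev GF : Type := (UF : Filter ℝ).Germ ℝ

noncomputable instance : Algebra ℝ GF :=
  ((Germ.coeRingHom (UF : Filter ℝ)).comp (Pi.constRingHom ℝ ℝ)).toAlgebra

theorem aeval_coe (f : ℝ → ℝ) (p : ℝ[X]) :
    aeval (f : GF) p = ((fun x => p.eval (f x) : ℝ → ℝ) : GF) := by
  induction p using Polynomial.induction_on' with
  | add p q hp hq =>
    rw [map_add, hp, hq, ← Germ.coe_add]
    congr 1
    funext x
    simp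
  | monomial n a =>
    rw [aeval_monomial]
    have : algebraMap ℝ GF a = ((fun _ => a : ℝ → ℝ) : GF) := rfl
    rw [this, ← Germ.coe_pow, ← Germ.coe_mul]
    congr 1
    funext x
    simp [eval_monomial]

theorem aevalAeval_coe (f h : ℝ → ℝ) (Q : ℝ[X][X]) :
    aevalAeval (f : GF) (h : GF) Q = ((fun x => Q.evalEval (f x) (h x) : ℝ → ℝ) : GF) := by
  induction Q using Polynomial.induction_on' with
  | add p q hp hq =>
    rw [map_add, hp, hq, ← Germ.coe_add]
    congr 1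
    funext x
    simp [evalEval_add]
  | monomial n p =>
    rw [← C_mul_X_pow_eq_monomial, map_mul, map_pow, aevalAeval_C, aevalAeval_Y, aeval_coe,
      ← Germ.coe_pow, ← Germ.coe_mul]
    congr 1
    funext x
    simp [evalEval_mul, evalEval_pow, evalEval_C, evalEval_X]

/-- the germ along the ultrafilter -/
noncomputable def Phi {r : WithTop ℕ∞} : GermMon r → GF :=
  Quotient.lift (fun f => ((f.1 : ℝ → ℝ) : GF))
    (fun f g h => Germ.coe_eq.mpr (EventuallyEq.filter_mono h UF_le'))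

theorem Phi_mk {r : WithTop ℕ∞} (f : PreGerm r) :
    Phi (mkG f) = ((f.1 : ℝ → ℝ) : GF) := rfl

theorem Phi_trans {r : WithTop ℕ∞} (u : DiffGerm r) : Transcendental ℝ (Phi u.val) := by
  obtain ⟨f, hf⟩ := exists_rep (u.val : GermMon r)
  obtain ⟨h, hh⟩ := exists_rep (u.inv : GermMon r)
  have hinv : (h.comp f).1 =ᶠ[𝓝 0] id := by
    have h1 : (u.inv : GermMon r) * u.val = 1 := u.inv_val
    rw [← hf, ← hh, mk_mul] at h1
    exact mkG_eq h1
  rw [← hf, Phi_mk]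
  rintro ⟨p, hp0, hp⟩
  rw [aeval_coe] at hp
  have hp' : ∀ᶠ x in (UF : Filter ℝ), p.eval (f.1 x) = 0 := Germ.coe_eq.mp hp
  have h2 : ∀ᶠ y in 𝓝[≠] (0 : ℝ), p.eval y ≠ 0 := by
    have hfin : ({y : ℝ | p.eval y = 0} \ {0}).Finite :=
      ((p.roots.toFinset.finite_toSet).subset (by
        intro y hy
        simp only [Finset.mem_coe, Multiset.mem_toFinset, mem_roots', IsRoot.def]
        exact ⟨hp0, hy⟩)).subset Set.sdiff_subset
    have hmem : ({y : ℝ | p.eval y = 0} \ {0})ᶜ ∈ 𝓝 (0 : ℝ) :=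
      hfin.isClosed.isOpen_compl.mem_nhds (by simp)
    filter_upwards [nhdsWithin_le_nhds hmem, self_mem_nhdsWithin] with y h1 h2 h3
    exact h1 ⟨h3, h2⟩
  have h3 : Tendsto f.1 (𝓝[≠] 0) (𝓝[≠] 0) := by
    rw [tendsto_nhdsWithin_iff]
    refine ⟨f.tendsto.mono_left nhdsWithin_le_nhds, ?_⟩
    filter_upwards [nhdsWithin_le_nhds hinv, self_mem_nhdsWithin] with x h4 h5 h6
    apply h5
    have h7 : h.1 (f.1 x) = x := h4
    have h8 : f.1 x = 0 := h6
    rw [h8, h.2.1] at h7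
    exact h7.symm
  have h4 : ∀ᶠ x in (UF : Filter ℝ), p.eval (f.1 x) ≠ 0 := UF_le (h3.eventually h2)
  obtain ⟨x, hx1, hx2⟩ := (hp'.and h4).exists
  exact hx2 hx1

/-- a germ with an annihilating polynomial of degree at most `D` in the first variable -/
def Good {r : WithTop ℕ∞} (D : ℕ) (u : GermMon r) : Prop :=
  ∃ Q : ℝ[X][X], Q ≠ 0 ∧ Q.natDegree ≤ D ∧ ∃ f : PreGerm r, mkG f = u ∧
    ∀ᶠ x in 𝓝 (0 : ℝ), Q.evalEval (f.1 x) x = 0

theorem step_of_good {r : WithTop ℕ∞} {D : ℕ} (s u : DiffGerm r) (hs : Good D s.val) :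
    Step ℝ D (Phi (s * u).val) (Phi u.val) := by
  refine ⟨Phi_trans _, ?_⟩
  obtain ⟨Q, hQ0, hQD, f, hf, hfQ⟩ := hs
  obtain ⟨h, hh⟩ := exists_rep (u.val : GermMon r)
  refine ⟨Q, hQ0, hQD, ?_⟩
  rw [Units.val_mul, ← hf, ← hh, mk_mul, Phi_mk, Phi_mk, aevalAeval_coe]
  apply Germ.coe_eq.mpr
  exact UF_le' (h.tendsto.eventually hfQ)

theorem reach_of_list {r : WithTop ℕ∞} {D : ℕ} (l : List (DiffGerm r))
    (hl : ∀ s ∈ l, Good D s.val) :
    Reach ℝ D l.length (Phi (l.prod).val) (Phi (1 : DiffGerm r).val) := by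
  induction l with
  | nil => exact Reach.refl _
  | cons s l ih =>
    rw [List.prod_cons, List.length_cons]
    refine Reach.step (step_of_good s l.prod (hl s (by simp))) (ih fun t ht => hl t (by simp [ht]))

/-- the iterates as polynomials -/
noncomputable def Gp : ℕ → ℝ[X]
  | 0 => X
  | n + 1 => Gp n - Gp n ^ 2

theorem Gp_natDegree (n : ℕ) : (Gp n).natDegree = 2 ^ n := by
  induction n with
  | zero => simp [Gp]
  | succ n ih =>
    have h1 : (Gp n ^ 2).natDegree = 2 ^ (n + 1) := by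
      rw [natDegree_pow, ih]; ring
    have h2 : (Gp n).natDegree < (Gp n ^ 2).natDegree := by
      rw [h1, ih]
      exact Nat.pow_lt_pow_right (by norm_num) (Nat.lt_succ_self n)
    rw [Gp, natDegree_sub_eq_right_of_natDegree_lt h2, h1]

theorem Phi_pow {r : WithTop ℕ∞} (n : ℕ) :
    Phi ((sqGerm r) ^ n).val = aeval (Phi (1 : DiffGerm r).val) (Gp n) := by
  induction n with
  | zero => simp [Gp]
  | succ n ih =>
    rw [pow_succ', Gp, map_sub, map_pow, ← ih]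
    obtain ⟨h, hh⟩ := exists_rep (((sqGerm r) ^ n).val : GermMon r)
    rw [Units.val_mul, ← hh]
    rfl

theorem two_pow_le {r : WithTop ℕ∞} {D : ℕ} (l : List (DiffGerm r))
    (hl : ∀ s ∈ l, Good D s.val) (n : ℕ) (hprod : l.prod = (sqGerm r) ^ n) :
    2 ^ n ≤ D ^ l.length := by
  have h1 := reach_of_list l hl
  rw [hprod, Phi_pow] at h1
  have h2 := lower (Phi_trans (1 : DiffGerm r)) (Gp n) (by rw [Gp_natDegree]; positivity) h1
  rwa [Gp_natDegree] at h2

theorem exists_D {r : WithTop ℕ∞} (S : Finset (DiffGerm r))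
    (hS : ∀ s ∈ S, IsAlgebraicGerm s.val) :
    ∃ D : ℕ, 2 ≤ D ∧ ∀ s : DiffGerm r, (s ∈ S ∨ s⁻¹ ∈ S) → Good D s.val := by
  classical
  choose! P hP0 f hf hfP using hS
  refine ⟨max 2 (S.sup fun s => max (P s).natDegree (Bivariate.swap (P s)).natDegree),
    le_max_left _ _, ?_⟩
  have hle : ∀ s ∈ S, max (P s).natDegree (Bivariate.swap (P s)).natDegree ≤
      max 2 (S.sup fun s => max (P s).natDegree (Bivariate.swap (P s)).natDegree) := by
    intro s hs
    exact le_trans (Finset.le_sup (f := fun s => max (P s).natDegree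
      (Bivariate.swap (P s)).natDegree) hs) (le_max_right _ _)
  have hsw : ∀ (Q : ℝ[X][X]) (x y : ℝ), (Bivariate.swap Q).evalEval x y = Q.evalEval y x := by
    intro Q x y
    have := Bivariate.aevalAeval_swap x y Q
    rwa [coe_aevalAeval_eq_evalEval, coe_aevalAeval_eq_evalEval] at this
  rintro s (hs | hs)
  · refine ⟨Bivariate.swap (P s), ?_, (le_max_right _ _).trans (hle s hs), f s, hf s hs, ?_⟩
    · intro h
      exact hP0 s hs ((map_eq_zero_iff _ (Bivariate.swap (R := ℝ)).injective).mp h)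
    · filter_upwards [hfP s hs] with x hx
      rw [hsw]
      exact hx
  · obtain ⟨h, hh⟩ := exists_rep (s.val : GermMon r)
    refine ⟨P s⁻¹, hP0 _ hs, (le_max_left _ _).trans (hle _ hs), h, hh, ?_⟩
    have h1 : ((f s⁻¹).comp h).1 =ᶠ[𝓝 0] id := by
      have h1 : (s⁻¹.val : GermMon r) * s.val = 1 := s.inv_val
      rw [← hf _ hs, ← hh, mk_mul] at h1
      exact mkG_eq h1
    filter_upwards [h1, h.tendsto.eventually (hfP _ hs)] with x h2 h3
    have h4 : (f s⁻¹).1 (h.1 x) = x := h2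
    rwa [h4] at h3

theorem main {r : WithTop ℕ∞} (S : Finset (DiffGerm r))
    (hS : ∀ s ∈ S, IsAlgebraicGerm s.val) :
    ∃ c : ℝ, 0 < c ∧ ∀ (n : ℕ) (l : List (DiffGerm r)), (∀ s ∈ l, s ∈ S ∨ s⁻¹ ∈ S) →
      l.prod = (sqGerm r) ^ n → c * n ≤ l.length := by
  obtain ⟨D, hD2, hD⟩ := exists_D S hS
  have hlogD : 0 < Real.log D := Real.log_pos (by exact_mod_cast (by omega : 1 < D))
  have hlog2 : 0 < Real.log 2 := Real.log_pos (by norm_num)
  refine ⟨Real.log 2 / Real.log D, div_pos hlog2 hlogD, ?_⟩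
  intro n l hl hprod
  have h1 := two_pow_le l (fun s hs => hD s (hl s hs)) n hprod
  have h2 : ((2 : ℝ) ^ n) ≤ (D : ℝ) ^ l.length := by exact_mod_cast h1
  have h3 := Real.log_le_log (by positivity) h2
  rw [Real.log_pow, Real.log_pow] at h3
  rw [div_mul_eq_mul_div, div_le_iff₀ hlogD]
  linarith


theorem exists_word {Γ : Type} [Group Γ] (S : Set Γ) (h : Γ) (hh : h ∈ Subgroup.closure S) :
    ∃ l : List Γ, (∀ s ∈ l, s ∈ S ∨ s⁻¹ ∈ S) ∧ l.prod = h := by
  rw [← Subgroup.mem_toSubmonoid, Subgroup.closure_toSubmonoid] at hh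
  obtain ⟨l, hl, hprod⟩ := Submonoid.exists_list_of_mem_closure hh
  exact ⟨l, fun s hs => by simpa using hl s hs, hprod⟩

theorem wordLength_spec {Γ : Type} [Group Γ] (S : Set Γ) (h : Γ) (hh : h ∈ Subgroup.closure S) :
    ∃ l : List Γ, (∀ s ∈ l, s ∈ S ∨ s⁻¹ ∈ S) ∧ l.prod = h ∧ l.length = wordLength S h := by
  obtain ⟨l, hl, hprod⟩ := exists_word S h hh
  exact Nat.sInf_mem (s := {k | ∃ l : List Γ, (∀ s ∈ l, s ∈ S ∨ s⁻¹ ∈ S) ∧ l.prod = h ∧
    l.length = k}) ⟨l.length, l, hl, hprod, rfl⟩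

/-- a linear lower bound for all words excludes distortion -/
theorem undistorted_of_bound {Γ : Type} [Group Γ] (S : Finset Γ) (g : Γ)
    (hb : ∃ c : ℝ, 0 < c ∧ ∀ (n : ℕ) (l : List Γ), (∀ s ∈ l, s ∈ S ∨ s⁻¹ ∈ S) →
      l.prod = g ^ n → c * n ≤ l.length) (hg : g ∈ Subgroup.closure (S : Set Γ)) :
    (∃ c : ℝ, 0 < c ∧ ∀ n : ℕ, c * n ≤ wordLength (S : Set Γ) (g ^ n)) ∧
      ¬ DistortedIn S g := by
  obtain ⟨c, hc, hb⟩ := hb
  have hall : ∀ n : ℕ, c * n ≤ wordLength (S : Set Γ) (g ^ n) := by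
    intro n
    obtain ⟨l, hl, hprod, hlen⟩ := wordLength_spec (S : Set Γ) (g ^ n)
      (Subgroup.pow_mem _ hg n)
    rw [← hlen]
    exact hb n l (by simpa using hl) hprod
  refine ⟨⟨c, hc, hall⟩, ?_⟩
  rintro ⟨_, hlim⟩
  have h1 : ∀ᶠ n : ℕ in atTop, (wordLength (S : Set Γ) (g ^ n) : ℝ) / n < c :=
    hlim.eventually (gt_mem_nhds hc)
  obtain ⟨n, hn, hn0⟩ := (h1.and (eventually_gt_atTop 0)).exists
  have h2 : (0 : ℝ) < n := by exact_mod_cast hn0
  rw [div_lt_iff₀ h2] at hn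
  linarith [hall n]

end Pool.Agent.Helper648.NG
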